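import Mathlib
import Pool.Agent.Lib.MP_052029_lc.Z.ZFin

/-!
Unambiguous Arthur-Merlin protocols for set disjointness of cost at most `c (log n)^2` whose
expected load is at most `n^c` look the same to all rectangle tests on disjoint and on uniquely
intersecting pairs.
-/

set_option autoImplicit false

namespace Pool.Agent.Lib.MP_052029_lc.Shelf.LargeLoadTests

open MP052029 MP052029.Zr

/-- There are `c > 0` and `n0` such that for `n ≥ n0`, every unambiguous private-coin
Arthur-Merlin protocol that computes `DISJ_n` with expected load at most `n ^ c` on every input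
and cost at most `c (log₂ n)²`, and all tests `α` (of Alice's input and coin) and `β` (of Bob's)
with values in `[-1, 1]`: `|E[α β load | x ∩ y = {i}] - E[α β | x ∩ y = ∅]|`, averaged over `i`
and the coins, is at most `n ^ (-1/16)`. -/
theorem result :
    ∃ c : ℝ, 0 < c ∧ ∃ n0 : ℕ, ∀ n ≥ n0, ∀ P : Protocol n, P.Computes → P.Unambiguous →
      (∀ x y : Fin n → Bool, P.avg (fun r q => (P.load x y r q : ℝ)) ≤ (n : ℝ) ^ c) →
      (P.cost : ℝ) ≤ c * Real.logb 2 n ^ 2 →
      ∀ (α : (Fin n → Bool) → P.R → ℝ) (β : (Fin n → Bool) → P.Q → ℝ),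
        (∀ x r, |α x r| ≤ 1) → (∀ y q, |β y q| ≤ 1) →
        P.avg (fun r q => (∑ i, |oneAvg i (fun x y => α x r * β y q * P.load x y r q) -
          noneAvg (fun x y => α x r * β y q)|) / n) ≤ (n : ℝ) ^ (-1 / 16 : ℝ) := by
  obtain ⟨c, hc, n0, H⟩ := final
  exact ⟨c, hc, n0, fun n hn P h1 h2 h3 => (H n hn P h1 h2 h3).1⟩

end Pool.Agent.Lib.MP_052029_lc.Shelf.LargeLoadTests
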