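import Mathlib
import Pool.Agent.Lib.MP_052029_lc.Z.ZE6

/-!
The number of rectangles that contain the random point of an unambiguous Arthur-Merlin protocol
for set disjointness is pseudorandom against communication protocols on uniquely intersecting
pairs.
-/

set_option autoImplicit false

namespace Pool.Agent.Lib.MP_052029_lc.Shelf.PseudorandomLoad

open MP052029 MP052029.Zr

private lemma lam_bound {n L A D : ℝ} (hn : 0 < n) (hL : 0 ≤ L)
    (h : ∀ lam : ℝ, 0 < lam → A ≤ D + 2 * (9 * lam * L / n + 3 / lam)) :
    A ≤ D + 21 * √(L / n) := by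
  rcases eq_or_lt_of_le hL with h0 | h0
  · refine le_of_forall_pos_le_add fun e he => ?_
    have h1 := h (6 / e) (by positivity)
    rw [← h0] at h1 ⊢
    have h2 : 2 * (9 * (6 / e) * 0 / n + 3 / (6 / e)) = e := by
      field_simp
      ring
    rw [h2] at h1
    simpa using h1
  · have hs : 0 < √(n / L) := Real.sqrt_pos.2 (by positivity)
    have h1 := h (4 / 7 * √(n / L)) (by positivity)
    have hq : 0 < √(L / n) := Real.sqrt_pos.2 (by positivity)
    have e1 : √(n / L) * √(L / n) = 1 := by
      rw [← Real.sqrt_mul (by positivity)]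
      rw [show n / L * (L / n) = 1 by field_simp]
      exact Real.sqrt_one
    have e2 : √(L / n) * √(L / n) = L / n := Real.mul_self_sqrt (by positivity)
    have e3 : √(n / L) * (L / n) = √(L / n) := by
      calc √(n / L) * (L / n) = √(n / L) * √(L / n) * √(L / n) := by rw [mul_assoc, e2]
        _ = √(L / n) := by rw [e1, one_mul]
    have e4 : 1 / √(n / L) = √(L / n) := by
      rw [eq_comm, eq_div_iff hs.ne', mul_comm]
      exact e1
    have e5 : 2 * (9 * (4 / 7 * √(n / L)) * L / n + 3 / (4 / 7 * √(n / L))) =
        2 * (36 / 7 * (√(n / L) * (L / n)) + 21 / 4 * (1 / √(n / L))) := by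
      field_simp
      ring
    rw [e5, e3, e4] at h1
    have h3 : 2 * (36 / 7 * √(L / n) + 21 / 4 * √(L / n)) ≤ 21 * √(L / n) := by
      nlinarith
    linarith

private lemma log_mk_nonneg (m k : ℕ) : 0 ≤ Real.log ((m : ℝ) * k) := by
  have : ((m : ℝ) * k) = ((m * k : ℕ) : ℝ) := by push_cast; ring
  rw [this]
  exact Real.log_natCast_nonneg _

/-- Let `P` be an unambiguous private-coin Arthur-Merlin protocol with `m` rectangles that
computes `DISJ_n`, and let the expected load be at most `K` on the pairs with exactly one common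
element. For every family `leaf r q` (one for each outcome `(r, q)` of the coins) of partitions
of the input pairs into `k` combinatorial rectangles: the sum over the parts `t` of
`|E[load; t | x ∩ y = {i}] - P[t | x ∩ y = ∅]|`, averaged over `i` and the coins, is at most
`(K - 1) + 21 * √(log (m k) / n)`. -/
theorem result :
    ∀ (n : ℕ) (P : Protocol n), 1 ≤ n → P.Computes → P.Unambiguous → ∀ K : ℝ,
      (∀ (i : Fin n) (x y : Fin n → Bool), (∀ j, (x j = true ∧ y j = true) ↔ j = i) →
        P.avg (fun r q => (P.load x y r q : ℝ)) ≤ K) →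
      ∀ (k : ℕ) (leaf : P.R → P.Q → (Fin n → Bool) → (Fin n → Bool) → Fin k),
        (∀ r q, IsRect (leaf r q)) →
        P.avg (fun r q => (∑ i, ∑ t, |oneAvg i (fun x y => if leaf r q x y = t then
            (P.load x y r q : ℝ) else 0) -
            noneAvg (fun x y => if leaf r q x y = t then 1 else 0)|) / n) ≤
          (K - 1) + 21 * √(Real.log (P.m * k) / n) := by
  intro n P hn hc hu K hK k leaf hl
  exact lam_bound (by exact_mod_cast hn) (log_mk_nonneg _ _)
    fun lam hlam => psr hn hc hu hK leaf hl hlam

end Pool.Agent.Lib.MP_052029_lc.Shelf.PseudorandomLoad
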